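import Pool.Agent.H65.PolEnd.Proof

/-!
# Polarized endomorphisms are semisimple modulo numerical equivalence
-/

namespace Pool.Agent.Results.MP_e95b71_ag.NumericalSemisimplicity

open Polynomial Pool.Agent.H65.PolEnd

universe u v w x y

/-- **Polarized endomorphisms are semisimple modulo numerical equivalence.**
For a polarized self-morphism `f` there is a squarefree integral polynomial `P` such that the
cycle `P(Γ_f)` on `X × X` is numerically trivial, and `f^*` is diagonalizable on `H^i(X)` if this
cycle acts as zero on `H^i(X)`. If `f^*` has no common eigenvalue on `H^i(X)` and on the other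
cohomology groups (weights), then `P(f^*)` lies in the nilradical of the algebra of algebraic
correspondences acting on `H^i(X)`; `f^*` is diagonalizable on `H^i(X)` if `H^i(X)` is semisimple
under the algebraic correspondences; and if `f^*` is diagonalizable on `H^i(X)`, then all
numerically trivial cycles in `ℤ[Γ_f]` act as zero on `H^i(X)`. -/
theorem result {F : Type u} [Field F] [CharZero F] (X : VarietyData.{u, v, w, x, y} F)
    (f : X.Mor) (hf : X.IsPolarized f) :
    ∃ P : ℤ[X], Squarefree (P.map (Int.castRingHom ℚ)) ∧
      X.NumTrivial (aeval (X.graph f) P) ∧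
      ∀ i : Fin (2 * X.dim + 1),
        (X.act i (aeval (X.graph f) P) = 0 → X.IsDiagonalizable f i) ∧
        (X.IsSeparated f i →
          (∀ v, IsNilpotent (X.act i (aeval (X.graph f) P * v))) ∧
          (IsSemisimpleModule (X.corrAlgebra i) (X.H i) → X.IsDiagonalizable f i) ∧
          (X.IsDiagonalizable f i → ∀ Q : ℤ[X], X.NumTrivial (aeval (X.graph f) Q) →
            X.act i (aeval (X.graph f) Q) = 0)) := by
  obtain ⟨P, hsq, hP⟩ := X.exists_poly hf
  exact ⟨P, hsq, hP, fun i => ⟨X.isDiagonalizable_of_eq_zero P hsq i, fun hd =>
    ⟨X.isNilpotent_act_mul hd hP, fun hS => X.isDiagonalizable_of_eq_zero P hsq i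
      (X.act_eq_zero_of_isSemisimpleModule hd hP hS), X.act_eq_zero_of_isDiagonalizable hd⟩⟩⟩

end Pool.Agent.Results.MP_e95b71_ag.NumericalSemisimplicity
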